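import Pool.Agent.Helper19.SQ.GoalsQ2

/-! Packet SF of project SQ (helper19, helper4; MP_bb32d1_al). -/

namespace Pool.Agent.Helper60.SQ

noncomputable section

open Matrix Pool.Agent.Helper19.SQ

/-- entries of `Smat` -/
def sm (q : ℂ) (a b c d : ℕ) : ℂ :=
  if c = d then
    (if a = b then (if a = c then q else if c < a then (q - q⁻¹) * q ^ (2 * (a - c)) else 0) else 0)
  else (if a = d ∧ b = c then 1 else 0)

lemma sm_eq (N : ℕ) (q : ℂ) (x y : Fin (N + 1) × Fin (N + 1)) :
    Smat N q x y = sm q x.1 x.2 y.1 y.2 := by
  unfold Smat sm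
  simp only [of_apply, Fin.ext_iff, Fin.lt_def]

lemma core (q : ℂ) (hq : q ≠ 0) (k a b c d : ℕ) :
    (if d = k then sm q a b c (k + 1) else 0) +
      (if c = k + 1 then -q⁻¹ * q ^ (-pr d k) * sm q a b k d else 0) =
    (if b = k then -q⁻¹ * sm q a (k + 1) c d else 0) +
      (if a = k + 1 then q ^ (pr b k) * sm q k b c d else 0) := by
  have p1 : k + 1 ≤ a → q ^ (2 * (a - k)) = q ^ 2 * q ^ (2 * (a - (k + 1))) := by
    intro h
    rw [← pow_add]
    congr 1
    omega
  have p2 : c ≤ k → q ^ (2 * (k + 1 - c)) = q ^ 2 * q ^ (2 * (k - c)) := by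
    intro h
    rw [← pow_add]
    congr 1
    omega
  unfold sm pr
  split_ifs <;> first
    | (exfalso; omega)
    | (simp; done)
    | (subst_vars; simp; done)
    | (have e : a - k = 1 := by omega
       rw [e]
       simp only [_root_.zpow_neg_one, _root_.zpow_one]
       field_simp
       ring1)
    | (have e : a - c = 1 := by omega
       rw [e]
       simp only [_root_.zpow_neg_one, _root_.zpow_one]
       field_simp
       ring1)
    | (have e : a - k = (a - c) + 1 := by omega
       rw [e]
       simp only [_root_.zpow_neg_one, _root_.zpow_one]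
       field_simp
       ring1)
    | (have e : a - c = (k - c) + 1 := by omega
       rw [e]
       simp only [_root_.zpow_neg_one, _root_.zpow_one]
       field_simp
       ring1)
    | (simp only [_root_.zpow_neg_one, _root_.zpow_one]
       field_simp
       ring1)

theorem sSF : S_SF := by
  intro N q hq k
  by_cases hk : k < N
  · set K : Fin (N + 1) := ⟨k, by omega⟩ with hK
    set K' : Fin (N + 1) := ⟨k + 1, by omega⟩ with hK'
    ext x y
    rw [mul_apply, mul_apply]
    have e1 : ∀ z, Smat N q x z * M1F N q k z y =
        (if z = (y.1, K') then (if (y.2 : ℕ) = k then sm q x.1 x.2 y.1 (k + 1) else 0) else 0) +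
        (if z = (K, y.2) then (if (y.1 : ℕ) = k + 1 then
          -q⁻¹ * q ^ (-pr y.2 k) * sm q x.1 x.2 k y.2 else 0) else 0) := by
      intro z
      rw [sm_eq]
      simp only [M1F, of_apply]
      rw [mul_add]
      congr 1
      · by_cases h1 : z = (y.1, K')
        · subst h1
          simp [hK']
        · rw [if_neg h1, if_neg, mul_zero]
          rintro ⟨h2, h3, h4⟩
          exact h1 (Prod.ext h2 (Fin.ext h3))
      · by_cases h1 : z = (K, y.2)
        · subst h1
          simp only [hK, true_and, and_true, if_true]
          split_ifs <;> ring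
        · rw [if_neg h1, if_neg, mul_zero]
          rintro ⟨⟨h2, h3⟩, h4⟩
          exact h1 (Prod.ext (Fin.ext h2) h4)
    have e2 : ∀ z, M2F N q k x z * Smat N q z y =
        (if z = (x.1, K') then (if (x.2 : ℕ) = k then -q⁻¹ * sm q x.1 (k + 1) y.1 y.2 else 0)
          else 0) +
        (if z = (K, x.2) then (if (x.1 : ℕ) = k + 1 then
          q ^ (pr x.2 k) * sm q k x.2 y.1 y.2 else 0) else 0) := by
      intro z
      rw [sm_eq]
      simp only [M2F, of_apply]
      rw [add_mul]
      congr 1
      · by_cases h1 : z = (x.1, K')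
        · subst h1
          simp [hK']
        · rw [if_neg h1, if_neg, zero_mul]
          rintro ⟨h2, h3, h4⟩
          exact h1 (Prod.ext h2.symm (Fin.ext h4))
      · by_cases h1 : z = (K, x.2)
        · subst h1
          simp [hK]
        · rw [if_neg h1, if_neg, zero_mul]
          rintro ⟨⟨h2, h3⟩, h4⟩
          exact h1 (Prod.ext (Fin.ext h3) h4.symm)
    rw [Finset.sum_congr rfl (fun z _ => e1 z), Finset.sum_congr rfl (fun z _ => e2 z),
      Finset.sum_add_distrib, Finset.sum_add_distrib]
    simp only [Finset.sum_ite_eq', Finset.mem_univ, if_true]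
    exact core q hq k x.1 x.2 y.1 y.2
  · have e1 : M1F N q k = 0 := by
      ext x y
      have h1 := x.2.2
      have h2 := y.1.2
      simp only [M1F, of_apply, Matrix.zero_apply]
      rw [if_neg (by omega), if_neg (by omega), add_zero]
    have e2 : M2F N q k = 0 := by
      ext x y
      have h1 := x.1.2
      have h2 := y.2.2
      simp only [M2F, of_apply, Matrix.zero_apply]
      rw [if_neg (by omega), if_neg (by omega), add_zero]
    rw [e1, e2, Matrix.mul_zero, Matrix.zero_mul]

end

end Pool.Agent.Helper60.SQ
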